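import Pool.Agent.helper55.RI.Spec

set_option autoImplicit false

namespace Pool.Agent.RI

open Pool.Agent.helper62 Prog Function Pool.Agent.helper81.PL

theorem B3_pow (k : ℕ) : PT (fun n : ℕ => (4 * n + 1) ^ k) := by
  induction k with
  | zero => simpa using PT.const (α := ℕ) (1 : ℕ)
  | succ k ih =>
    have h : (fun n : ℕ => (4 * n + 1) ^ (k + 1)) = fun n : ℕ => (4 * n + 1) ^ k * (4 * n + 1) := by
      funext n; rw [pow_succ]
    rw [h]
    have h2 : PT (fun n : ℕ => 4 * n + 1) := by fun_prop
    exact pt_mul.comp (ih.pair h2)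

theorem B3_poly (c : Polynomial ℕ) : PT (fun n : ℕ => c.eval (4 * n + 1)) := by
  induction c using Polynomial.induction_on' with
  | add p q hp hq =>
    simp only [Polynomial.eval_add]
    exact pt_add.comp (hp.pair hq)
  | monomial k a =>
    simp only [Polynomial.eval_monomial]
    exact pt_mul.comp ((PT.const a).pair (B3_pow k))

theorem B3 (hK2 : K2_stmt) (hK3 : K3_stmt) : B3_stmt := by
  intro A ⟨e, m, he, hm, hme, hA⟩
  obtain ⟨a, ha⟩ := hK2.2
  obtain ⟨p1, p2, p3, strip, p4, p5⟩ := hK3
  obtain ⟨c, hc⟩ := hm.size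
  have hJ := B3_poly c
  have hin : PT (fun x : W => pre a (pre (c.eval (4 * x.length + 1)) x)) := by
    have h1 : PT (fun x : W => c.eval (4 * x.length + 1)) := hJ.comp pt_length
    have h2 : PT (fun x : W => pre (c.eval (4 * x.length + 1)) x) := p1.comp (h1.pair PT.id)
    exact p1.comp ((PT.const a).pair h2)
  refine ⟨fun x => e (pre a (pre (c.eval (4 * x.length + 1)) x)),
    fun v => strip (strip (m v)), he.comp hin, p4.comp (p4.comp hm), ?_, ?_, ?_⟩
  · intro x
    show strip (strip (m (e _))) = x
    rw [hme, p5, p5]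
  · intro x
    by_contra hlt
    have hle : (e (pre a (pre (c.eval (4 * x.length + 1)) x))).length ≤ x.length := not_lt.mp hlt
    have h1 := hc (e (pre a (pre (c.eval (4 * x.length + 1)) x)))
    simp only [hme] at h1
    have h2 := length_le_sz (pre a (pre (c.eval (4 * x.length + 1)) x))
    rw [p3, p3] at h2
    have h3 : sz (e (pre a (pre (c.eval (4 * x.length + 1)) x))) ≤ x.length * (3 + 1) + 1 :=
      sz_list_le hle (fun b _ => sz_bool_le b)
    have h4 := Pool.Agent.H54.PT.pe_mono c h3
    have h5 : x.length * (3 + 1) + 1 = 4 * x.length + 1 := by ring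
    rw [h5] at h4
    omega
  · intro x
    rw [← hA]
    exact (ha _ x).symm

end Pool.Agent.RI
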