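import Pool.Agent.helper55.RI.Spec

set_option autoImplicit false

namespace Pool.Agent.RI

open Pool.Agent.helper62 Prog Function Pool.Agent.helper81.PL

theorem R3_iff {α : Type} [Primcodable α] (p : α → Prop) :
    ComputablePred p ↔ ∃ f : α → Bool, Computable f ∧ ∀ a, p a ↔ f a = true := by
  rw [ComputablePred.computable_iff]
  constructor
  · rintro ⟨f, hf, rfl⟩
    exact ⟨f, hf, fun a => Iff.rfl⟩
  · rintro ⟨f, hf, h⟩
    exact ⟨f, hf, funext fun a => propext (h a)⟩

theorem R3_not {α : Type} [Primcodable α] {p : α → Prop} (hp : ComputablePred p) :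
    ComputablePred (fun a => ¬ p a) := by
  obtain ⟨f, hf, h⟩ := (R3_iff p).mp hp
  refine (R3_iff _).mpr ⟨fun a => cond (f a) false true,
    Computable.cond hf (Computable.const false) (Computable.const true), ?_⟩
  intro a
  rw [h a]
  cases hfa : f a <;> simp [hfa]

theorem R3_and {α : Type} [Primcodable α] {p q : α → Prop} (hp : ComputablePred p)
    (hq : ComputablePred q) : ComputablePred (fun a => p a ∧ q a) := by
  obtain ⟨f, hf, h⟩ := (R3_iff p).mp hp
  obtain ⟨g, hg, h'⟩ := (R3_iff q).mp hq
  refine (R3_iff _).mpr ⟨fun a => cond (f a) (g a) false,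
    Computable.cond hf hg (Computable.const false), ?_⟩
  intro a
  rw [h a, h' a]
  cases hfa : f a <;> simp [hfa]

theorem R3_comp {α β : Type} [Primcodable α] [Primcodable β] (f : α → β) (p : β → Prop)
    (hf : Computable f) (hp : ComputablePred p) : ComputablePred (fun a => p (f a)) := by
  obtain ⟨g, hg, h⟩ := (R3_iff p).mp hp
  exact (R3_iff _).mpr ⟨fun a => g (f a), hg.comp hf, fun a => h (f a)⟩

theorem R3_all {α : Type} [Primcodable α] (p : α → ℕ → Prop) (g : α → ℕ)
    (hp : ComputablePred (fun x : α × ℕ => p x.1 x.2)) (hg : Computable g) :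
    ComputablePred (fun a => ∀ k < g a, p a k) := by
  obtain ⟨f, hf, h⟩ := (R3_iff _).mp hp
  refine (R3_iff _).mpr ⟨fun a => Nat.rec (motive := fun _ => Bool) true
    (fun k b => cond b (f (a, k)) false) (g a), ?_, ?_⟩
  · refine Computable.nat_rec (h := fun a (q : ℕ × Bool) => cond q.2 (f (a, q.1)) false)
      hg (Computable.const true) ?_
    show Computable (fun z : α × (ℕ × Bool) => cond z.2.2 (f (z.1, z.2.1)) false)
    refine Computable.cond ?_ ?_ (Computable.const false)
    · exact Computable.snd.comp Computable.snd
    · exact hf.comp (Computable.pair Computable.fst (Computable.fst.comp Computable.snd))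
  · intro a
    have key : ∀ n : ℕ, (∀ k < n, p a k) ↔ (Nat.rec (motive := fun _ => Bool) true
        (fun k b => cond b (f (a, k)) false) n) = true := by
      intro n
      induction n with
      | zero => simp
      | succ n ih =>
        have h1 : (Nat.rec (motive := fun _ => Bool) true
            (fun k b => cond b (f (a, k)) false) (n + 1)) =
            cond (Nat.rec (motive := fun _ => Bool) true
              (fun k b => cond b (f (a, k)) false) n) (f (a, n)) false := rfl
        rw [h1]
        constructor
        · intro h2
          have h3 := ih.mp (fun k hk => h2 k (by omega))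
          rw [h3]
          exact (h (a, n)).mp (h2 n (by omega))
        · intro h2 k hk
          cases hc : (Nat.rec (motive := fun _ => Bool) true
              (fun k b => cond b (f (a, k)) false) n) with
          | false => rw [hc] at h2; simp at h2
          | true =>
            rw [hc] at h2
            rcases Nat.lt_succ_iff_lt_or_eq.mp hk with hk | hk
            · exact ih.mpr hc k hk
            · rw [hk]; exact (h (a, n)).mpr h2
    exact key (g a)

theorem R3 : R3_stmt := by
  refine ⟨?_, ?_, ?_, ?_, ?_⟩
  · intro α _ p q hp hq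
    refine ⟨R3_and hp hq, ?_, R3_not hp⟩
    exact (R3_not (R3_and (R3_not hp) (R3_not hq))).of_eq (fun a => by tauto)
  · intro α β _ _ f p hf hp
    exact R3_comp f p hf hp
  · intro α _ p g hp hg
    refine ⟨R3_all p g hp hg, ?_⟩
    have h := R3_not (R3_all (fun a k => ¬ p a k) g (R3_not hp) hg)
    exact h.of_eq (fun a => by push Not; rfl)
  · intro α β _ _ _ f g hf hg
    have h : ComputablePred (fun x : β × β => x.1 = x.2) := (Primrec.eq (α := β)).computablePred
    exact R3_comp (fun a => (f a, g a)) _ (hf.pair hg) h
  · intro α _ f g hf hg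
    have h : ComputablePred (fun x : ℕ × ℕ => x.1 < x.2) := Primrec.nat_lt.computablePred
    exact R3_comp (fun a => (f a, g a)) _ (hf.pair hg) h

end Pool.Agent.RI
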